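import Mathlib
import Pool.Agent.Helper386.D5V.Helper386_FF_Div
import Pool.Agent.H962R3.Cnt

/-!
Counting functions congruent to one modulo a power of a finite set of places, and the polynomiality of
the Euler product of a multiplicative function satisfying a reciprocity law.
-/

set_option autoImplicit false

open Module

namespace Pool.Agent.H962R3.App

open Pool.Agent.H962R3.Cnt

variable {k F : Type*} [Field k] [Field F] [Algebra k F]

/-- The Riemann-Roch space (same body as `FF.LL`). -/
def LL (D : FF.Place k F →₀ ℤ) : Submodule k F where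
  carrier := {f | f = 0 ∨ ∀ P : FF.Place k F, - D P ≤ P.ord f}
  zero_mem' := Or.inl rfl
  add_mem' := by
    intro f g hf hg
    by_cases hf0 : f = 0
    · rwa [hf0, zero_add]
    by_cases hg0 : g = 0
    · rwa [hg0, add_zero]
    by_cases hfg : f + g = 0
    · exact Or.inl hfg
    · right
      intro P
      exact (le_min ((hf.resolve_left hf0) P) ((hg.resolve_left hg0) P)).trans (P.ord_add hf0 hg0 hfg)
  smul_mem' := by
    intro c f hf
    by_cases hc : c = 0
    · left; rw [hc, zero_smul]
    by_cases hf0 : f = 0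
    · left; rw [hf0, smul_zero]
    · right
      intro P
      rw [Algebra.smul_def, P.ord_mul (by simpa using hc) hf0, P.ord_const hc, zero_add]
      exact (hf.resolve_left hf0) P

theorem mem_LL {D : FF.Place k F →₀ ℤ} {f : F} :
    f ∈ LL D ↔ f = 0 ∨ ∀ P : FF.Place k F, - D P ≤ P.ord f := Iff.rfl

/-- The degree of a divisor. -/
noncomputable abbrev dg (D : FF.Place k F →₀ ℤ) : ℤ := Deg (fun P : FF.Place k F => P.deg) D

variable (k F) in
/-- Finiteness of divisors, the product formula, and Riemann's theorem. -/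
structure RR : Prop where
  fin : ∀ f : F, {P : FF.Place k F | P.ord f ≠ 0}.Finite
  deg0 : ∀ f : F, f ≠ 0 → dg (Finsupp.ofSupportFinite (fun P : FF.Place k F => P.ord f) (fin f)) = 0
  fd : ∀ D : FF.Place k F →₀ ℤ, FiniteDimensional k (LL D)
  riem : ∃ γ N : ℤ, ∀ D : FF.Place k F →₀ ℤ, N ≤ dg D → (finrank k (LL D) : ℤ) = dg D - γ

open Classical in
/-- The modulus. -/
noncomputable def md (S : Finset (FF.Place k F)) (M : ℕ) : FF.Place k F →₀ ℤ :=
  Finsupp.onFinset S (fun P => if P ∈ S then (M : ℤ) else 0) (by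
    intro P h
    by_contra hc
    exact h (if_neg hc))

theorem md_of_mem {S : Finset (FF.Place k F)} {M : ℕ} {P : FF.Place k F} (h : P ∈ S) :
    md S M P = M := by
  classical
  exact if_pos h

theorem md_of_notMem {S : Finset (FF.Place k F)} {M : ℕ} {P : FF.Place k F} (h : P ∉ S) :
    md S M P = 0 := by
  classical
  exact if_neg h

/-- The positive part. -/
noncomputable def pos (D : FF.Place k F →₀ ℤ) : FF.Place k F →₀ ℤ :=
  D.mapRange (fun n => max n 0) (by simp)

theorem pos_apply (D : FF.Place k F →₀ ℤ) (P : FF.Place k F) : pos D P = max (D P) 0 := by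
  unfold pos; rw [Finsupp.mapRange_apply]

theorem dg_nonneg {D : FF.Place k F →₀ ℤ} (h : ∀ P, 0 ≤ D P) : 0 ≤ dg D := by
  unfold dg Deg
  apply Finset.sum_nonneg
  intro P _
  exact mul_nonneg (h P) (by positivity)

theorem Deg_sub {ι : Type*} (d : ι → ℕ) (D E : ι →₀ ℤ) : Deg d (D - E) = Deg d D - Deg d E := by
  rw [sub_eq_add_neg, Deg_add, Deg_neg]; ring

theorem inf_eq (S : Finset (FF.Place k F)) (M : ℕ) (D : FF.Place k F →₀ ℤ) (hD : ∀ P ∈ S, D P = 0) :
    LL D ⊓ LL (pos D - md S M) = LL (D - md S M) := by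
  ext f
  rw [Submodule.mem_inf, mem_LL, mem_LL, mem_LL]
  by_cases hf : f = 0
  · simp [hf]
  · simp only [hf, false_or]
    constructor
    · rintro ⟨h1, h2⟩ P
      have h3 := h1 P
      have h4 := h2 P
      rw [Finsupp.sub_apply, pos_apply] at h4
      rw [Finsupp.sub_apply]
      by_cases hP : P ∈ S
      · rw [hD P hP] at h4 ⊢
        simpa using h4
      · rw [md_of_notMem hP]
        simpa using h3
    · intro h
      constructor
      · intro P
        have h1 := h P
        rw [Finsupp.sub_apply] at h1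
        by_cases hP : P ∈ S
        · rw [md_of_mem hP] at h1
          have : (0 : ℤ) ≤ M := Int.natCast_nonneg _
          omega
        · rw [md_of_notMem hP] at h1
          simpa using h1
      · intro P
        have h1 := h P
        rw [Finsupp.sub_apply] at h1
        rw [Finsupp.sub_apply, pos_apply]
        have h2 : D P ≤ max (D P) 0 := le_max_left _ _
        omega

theorem one_mem_LL {D : FF.Place k F →₀ ℤ} (h : ∀ P, 0 ≤ D P) : (1 : F) ∈ LL D := by
  right
  intro P
  rw [P.ord_one]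
  have := h P
  omega

theorem LL_mono {D E : FF.Place k F →₀ ℤ} (h : ∀ P, D P ≤ E P) : LL D ≤ LL E := by
  intro f hf
  rcases hf with hf | hf
  · exact Or.inl hf
  · right; intro P; have := hf P; have := h P; omega

/-- Existence of a function with prescribed poles which is congruent to one. -/
theorem exists_one_mod (hR : RR k F) {γ N : ℤ}
    (hN : ∀ D : FF.Place k F →₀ ℤ, N ≤ dg D → (finrank k (LL D) : ℤ) = dg D - γ)
    (S : Finset (FF.Place k F)) (M : ℕ) (D : FF.Place k F →₀ ℤ) (hD : ∀ P ∈ S, D P = 0)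
    (hdeg : N + dg (md S M) ≤ dg D) :
    ∃ f₀ ∈ LL D, ∀ P ∈ S, 1 - f₀ = 0 ∨ (M : ℤ) ≤ P.ord (1 - f₀) := by
  classical
  have hmd : (0 : ℤ) ≤ dg (md S M) := by
    apply dg_nonneg
    intro P
    by_cases hP : P ∈ S
    · rw [md_of_mem hP]; exact Int.natCast_nonneg _
    · rw [md_of_notMem hP]
  have hpos : dg D ≤ dg (pos D) := by
    have h1 : 0 ≤ dg (pos D - D) := by
      apply dg_nonneg
      intro P
      rw [Finsupp.sub_apply, pos_apply]
      have := le_max_left (D P) 0
      omega
    unfold dg at h1 ⊢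
    rw [Deg_sub] at h1
    omega
  have e1 := hN D (by omega)
  have e2 := hN (pos D) (by omega)
  have e3 := hN (D - md S M) (by unfold dg at hdeg hmd ⊢; rw [Deg_sub]; omega)
  have e4 := hN (pos D - md S M) (by unfold dg at hdeg hmd hpos ⊢; rw [Deg_sub]; omega)
  have f1 := hR.fd D
  have f2 := hR.fd (pos D)
  have f3 := hR.fd (D - md S M)
  have f4 := hR.fd (pos D - md S M)
  have h1 := Submodule.finrank_sup_add_finrank_inf_eq (LL D) (LL (pos D - md S M))
  rw [inf_eq S M D hD] at h1
  have hle : LL D ⊔ LL (pos D - md S M) ≤ LL (pos D) := by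
    apply sup_le
    · apply LL_mono
      intro P
      rw [pos_apply]
      exact le_max_left _ _
    · apply LL_mono
      intro P
      rw [Finsupp.sub_apply]
      by_cases hP : P ∈ S
      · rw [md_of_mem hP]
        have : (0 : ℤ) ≤ M := Int.natCast_nonneg _
        omega
      · rw [md_of_notMem hP]; omega
  have heq : LL D ⊔ LL (pos D - md S M) = LL (pos D) := by
    apply Submodule.eq_of_le_of_finrank_eq hle
    unfold dg at e1 e2 e3 e4
    rw [Deg_sub] at e3 e4
    omega
  have h2 : (1 : F) ∈ LL D ⊔ LL (pos D - md S M) := by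
    rw [heq]
    apply one_mem_LL
    intro P
    rw [pos_apply]
    exact le_max_right _ _
  obtain ⟨f₀, hf₀, g, hg, hfg⟩ := Submodule.mem_sup.1 h2
  refine ⟨f₀, hf₀, fun P hP => ?_⟩
  have h3 : 1 - f₀ = g := by rw [← hfg]; ring
  rw [h3]
  rcases hg with hg | hg
  · exact Or.inl hg
  · right
    have h4 := hg P
    rw [Finsupp.sub_apply, pos_apply, hD P hP, md_of_mem hP] at h4
    simpa using h4

/-- The functions congruent to one modulo `M • S`. -/
def Hg (S : Finset (FF.Place k F)) (M : ℕ) (hM : 1 ≤ M) : Subgroup Fˣ where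
  carrier := {h | ∀ P ∈ S, (h : F) - 1 = 0 ∨ (M : ℤ) ≤ P.ord ((h : F) - 1)}
  one_mem' := by
    intro P _
    left
    simp
  mul_mem' := by
    intro a b ha hb P hP
    have e : ((a * b : Fˣ) : F) - 1 = ((a : F) - 1) * b + ((b : F) - 1) := by
      rw [Units.val_mul]; ring
    have hb0 : P.ord (b : F) = 0 := by
      rcases hb P hP with h | h
      · rw [sub_eq_zero.1 h, P.ord_one]
      · by_cases h1 : (b : F) - 1 = 0
        · rw [sub_eq_zero.1 h1, P.ord_one]
        · have h2 := P.ord_add_eq (f := 1) (g := (b : F) - 1) one_ne_zero h1 (by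
            rw [P.ord_one]; omega)
          rw [add_sub_cancel, P.ord_one] at h2
          exact h2.2
    by_cases h1 : (a : F) - 1 = 0
    · rw [e, h1, zero_mul, zero_add]
      exact hb P hP
    · by_cases h2 : (b : F) - 1 = 0
      · rw [e, h2, add_zero]
        right
        rw [P.ord_mul h1 b.ne_zero, hb0, add_zero]
        exact (ha P hP).resolve_left h1
      · rw [e]
        by_cases h3 : ((a : F) - 1) * b + ((b : F) - 1) = 0
        · exact Or.inl h3
        · right
          refine le_trans (le_min ?_ ((hb P hP).resolve_left h2))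
            (P.ord_add (mul_ne_zero h1 b.ne_zero) h2 h3)
          rw [P.ord_mul h1 b.ne_zero, hb0, add_zero]
          exact (ha P hP).resolve_left h1
  inv_mem' := by
    intro a ha P hP
    by_cases h1 : (a : F) - 1 = 0
    · left
      rw [Units.val_inv_eq_inv_val, sub_eq_zero.1 h1]
      simp
    · right
      have h2 := (ha P hP).resolve_left h1
      have ha0 : P.ord (a : F) = 0 := by
        have h3 := P.ord_add_eq (f := 1) (g := (a : F) - 1) one_ne_zero h1 (by
          rw [P.ord_one]; omega)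
        rw [add_sub_cancel, P.ord_one] at h3
        exact h3.2
      have e : ((a⁻¹ : Fˣ) : F) - 1 = -(((a : F) - 1) * (a : F)⁻¹) := by
        rw [Units.val_inv_eq_inv_val, sub_mul, mul_inv_cancel₀ a.ne_zero]
        ring
      rw [e, P.ord_neg, P.ord_mul h1 (inv_ne_zero a.ne_zero), P.ord_inv, ha0, neg_zero, add_zero]
      exact h2

theorem ord_eq_zero_of_mem {S : Finset (FF.Place k F)} {M : ℕ} {hM : 1 ≤ M} {h : Fˣ}
    (hh : h ∈ Hg S M hM) {P : FF.Place k F} (hP : P ∈ S) : P.ord (h : F) = 0 := by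
  by_cases h1 : (h : F) - 1 = 0
  · rw [sub_eq_zero.1 h1, P.ord_one]
  · have h2 := (hh P hP).resolve_left h1
    have h3 := P.ord_add_eq (f := 1) (g := (h : F) - 1) one_ne_zero h1 (by
      rw [P.ord_one]; omega)
    rw [add_sub_cancel, P.ord_one] at h3
    exact h3.2

/-- Extension by zero of a divisor prime to `S`. -/
noncomputable def ex {S : Finset (FF.Place k F)} (D : {P : FF.Place k F // P ∉ S} →₀ ℤ) :
    FF.Place k F →₀ ℤ :=
  D.embDomain ⟨Subtype.val, Subtype.val_injective⟩

theorem ex_notMem {S : Finset (FF.Place k F)} (D : {P : FF.Place k F // P ∉ S} →₀ ℤ)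
    (P : {P : FF.Place k F // P ∉ S}) : ex D P.1 = D P :=
  Finsupp.embDomain_apply_self _ _ _

theorem ex_mem {S : Finset (FF.Place k F)} (D : {P : FF.Place k F // P ∉ S} →₀ ℤ)
    {P : FF.Place k F} (hP : P ∈ S) : ex D P = 0 := by
  apply Finsupp.embDomain_of_notMem_range
  rintro ⟨Q, hQ⟩
  have : (Q : FF.Place k F) = P := hQ
  exact Q.2 (this ▸ hP)

theorem dg_ex {S : Finset (FF.Place k F)} (D : {P : FF.Place k F // P ∉ S} →₀ ℤ) :
    dg (ex D) = Deg (fun P : {P : FF.Place k F // P ∉ S} => P.1.deg) D := by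
  unfold dg Deg ex
  rw [Finsupp.sum_embDomain]
  rfl

variable (hR : RR k F)

/-- The divisor of a function. -/
noncomputable def dvF (f : F) : FF.Place k F →₀ ℤ :=
  Finsupp.ofSupportFinite (fun P : FF.Place k F => P.ord f) (hR.fin f)

theorem dvF_apply (f : F) (P : FF.Place k F) : dvF hR f P = P.ord f := rfl

/-- The divisor of a function in `Hg`, as a divisor prime to `S`. -/
noncomputable def dv {S : Finset (FF.Place k F)} {M : ℕ} {hM : 1 ≤ M} (h : Hg (k := k) S M hM) :
    {P : FF.Place k F // P ∉ S} →₀ ℤ :=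
  (dvF hR (h.1 : F)).comapDomain Subtype.val Subtype.val_injective.injOn

theorem dv_apply {S : Finset (FF.Place k F)} {M : ℕ} {hM : 1 ≤ M} (h : Hg (k := k) S M hM)
    (P : {P : FF.Place k F // P ∉ S}) : dv hR h P = P.1.ord (h.1 : F) := rfl

theorem ex_dv {S : Finset (FF.Place k F)} {M : ℕ} {hM : 1 ≤ M} (h : Hg (k := k) S M hM) :
    ex (dv hR h) = dvF hR (h.1 : F) := by
  ext P
  rw [dvF_apply]
  by_cases hP : P ∈ S
  · rw [ex_mem _ hP, ord_eq_zero_of_mem h.2 hP]
  · exact ex_notMem (dv hR h) ⟨P, hP⟩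

theorem dv_inv {S : Finset (FF.Place k F)} {M : ℕ} {hM : 1 ≤ M} (h : Hg (k := k) S M hM) :
    dv hR h⁻¹ = - dv hR h := by
  ext P
  rw [Finsupp.neg_apply, dv_apply, dv_apply]
  have : ((h⁻¹ : Hg (k := k) S M hM).1 : F) = (h.1 : F)⁻¹ := by
    rw [Subgroup.coe_inv, Units.val_inv_eq_inv_val]
  rw [this, P.1.ord_inv]

theorem Deg_dv {S : Finset (FF.Place k F)} {M : ℕ} {hM : 1 ≤ M} (h : Hg (k := k) S M hM) :
    Deg (fun P : {P : FF.Place k F // P ∉ S} => P.1.deg) (dv hR h) = 0 := by
  rw [← dg_ex, ex_dv]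
  exact hR.deg0 _ h.1.ne_zero

theorem nonneg_iff {S : Finset (FF.Place k F)} {M : ℕ} {hM : 1 ≤ M} (h : Hg (k := k) S M hM)
    (D : {P : FF.Place k F // P ∉ S} →₀ ℤ) : 0 ≤ D + dv hR h ↔ (h.1 : F) ∈ LL (ex D) := by
  rw [mem_LL]
  constructor
  · intro h0
    right
    intro P
    by_cases hP : P ∈ S
    · rw [ex_mem _ hP, ord_eq_zero_of_mem h.2 hP, neg_zero]
    · have h1 := h0 ⟨P, hP⟩
      rw [Finsupp.coe_zero, Pi.zero_apply, Finsupp.add_apply, dv_apply] at h1
      have h2 := ex_notMem D ⟨P, hP⟩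
      simp only at h1 h2
      rw [h2]
      omega
  · intro h0 P
    have h1 := h0.resolve_left h.1.ne_zero P.1
    rw [ex_notMem] at h1
    rw [Finsupp.coe_zero, Pi.zero_apply, Finsupp.add_apply, dv_apply]
    omega

/-- The number of functions congruent to one in a Riemann-Roch space. -/
theorem card_eq [Finite k] {γ N : ℤ}
    (hN : ∀ D : FF.Place k F →₀ ℤ, N ≤ dg D → (finrank k (LL D) : ℤ) = dg D - γ)
    (S : Finset (FF.Place k F)) (M : ℕ) (hM : 1 ≤ M)
    (D : {P : FF.Place k F // P ∉ S} →₀ ℤ)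
    (hdeg : N + dg (md S M) ≤ dg (ex D)) :
    Nat.card {h : Hg (k := k) S M hM // 0 ≤ D + dv hR h} =
      Nat.card k ^ finrank k (LL (ex D - md S M)) - (if S.card = 0 then 1 else 0) := by
  classical
  obtain ⟨f₀, hf₀, hf₁⟩ := exists_one_mod hR hN S M (ex D) (fun P hP => ex_mem D hP) hdeg
  have f3 := hR.fd (ex D - md S M)
  have hfinL : Finite (LL (ex D - md S M)) := Module.finite_of_finite k
  have : Fintype (LL (ex D - md S M)) := Fintype.ofFinite _
  have hcardL : Nat.card (LL (ex D - md S M)) = Nat.card k ^ finrank k (LL (ex D - md S M)) :=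
    Module.natCard_eq_pow_finrank
  have hmem : ∀ g ∈ LL (ex D - md S M), g ∈ LL (ex D) := by
    intro g hg
    refine LL_mono ?_ hg
    intro P
    rw [Finsupp.sub_apply]
    by_cases hP : P ∈ S
    · rw [md_of_mem hP]
      have : (0 : ℤ) ≤ M := Int.natCast_nonneg _
      omega
    · rw [md_of_notMem hP]; omega
  have hcong : ∀ g ∈ LL (ex D - md S M), ∀ P ∈ S,
      (f₀ + g) - 1 = 0 ∨ (M : ℤ) ≤ P.ord ((f₀ + g) - 1) := by
    intro g hg P hP
    have e : f₀ + g - 1 = g + (-(1 - f₀)) := by ring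
    have hg' : g = 0 ∨ (M : ℤ) ≤ P.ord g := by
      rcases hg with hg | hg
      · exact Or.inl hg
      · right
        have := hg P
        rw [Finsupp.sub_apply, ex_mem _ hP, md_of_mem hP] at this
        simpa using this
    by_cases h1 : g = 0
    · rw [e, h1, zero_add, P.ord_neg, neg_eq_zero]
      exact hf₁ P hP
    · by_cases h2 : 1 - f₀ = 0
      · rw [e, h2, neg_zero, add_zero]
        exact hg'
      · by_cases h3 : g + (-(1 - f₀)) = 0
        · rw [e]; exact Or.inl h3
        · right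
          rw [e]
          refine le_trans (le_min (hg'.resolve_left h1) ?_) (P.ord_add h1 (neg_ne_zero.2 h2) h3)
          rw [P.ord_neg]
          exact (hf₁ P hP).resolve_left h2
  have hdiff : ∀ h : Hg (k := k) S M hM, (h.1 : F) ∈ LL (ex D) →
      (h.1 : F) - f₀ ∈ LL (ex D - md S M) := by
    intro h hh
    have h2 : (h.1 : F) - f₀ ∈ LL (ex D) := Submodule.sub_mem _ hh hf₀
    by_cases h0 : (h.1 : F) - f₀ = 0
    · exact Or.inl h0
    · right
      intro P
      rw [Finsupp.sub_apply]
      by_cases hP : P ∈ S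
      · rw [md_of_mem hP, ex_mem _ hP]
        have e1 : (h.1 : F) - f₀ = ((h.1 : F) - 1) + (1 - f₀) := by ring
        have h3 : (M : ℤ) ≤ P.ord ((h.1 : F) - f₀) := by
          by_cases h4 : (h.1 : F) - 1 = 0
          · rw [e1, h4, zero_add] at h0 ⊢
            exact (hf₁ P hP).resolve_left h0
          · by_cases h5 : 1 - f₀ = 0
            · rw [e1, h5, add_zero]
              exact (h.2 P hP).resolve_left h4
            · rw [e1] at h0 ⊢
              exact le_trans (le_min ((h.2 P hP).resolve_left h4) ((hf₁ P hP).resolve_left h5))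
                (P.ord_add h4 h5 h0)
        omega
      · rw [md_of_notMem hP, sub_zero]
        exact h2.resolve_left h0 P
  let e : {h : Hg (k := k) S M hM // 0 ≤ D + dv hR h} ≃
      {g : LL (ex D - md S M) // f₀ + g.1 ≠ 0} :=
    { toFun := fun h => ⟨⟨(h.1.1 : F) - f₀, hdiff h.1 ((nonneg_iff hR h.1 D).1 h.2)⟩, by
          have : f₀ + ((h.1.1 : F) - f₀) = h.1.1 := by ring
          show f₀ + ((h.1.1 : F) - f₀) ≠ 0
          rw [this]
          exact h.1.1.ne_zero⟩
      invFun := fun g => ⟨⟨Units.mk0 (f₀ + g.1.1) g.2, fun P hP => hcong g.1.1 g.1.2 P hP⟩, by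
          rw [nonneg_iff]
          exact Submodule.add_mem _ hf₀ (hmem _ g.1.2)⟩
      left_inv := by
        rintro ⟨⟨h, hh⟩, h0⟩
        apply Subtype.ext
        apply Subtype.ext
        apply Units.ext
        simp
      right_inv := by
        rintro ⟨⟨g, hg⟩, h0⟩
        apply Subtype.ext
        apply Subtype.ext
        simp }
  rw [Nat.card_congr e, ← hcardL]
  by_cases hS : S.card = 0
  · rw [if_pos hS]
    have hS' : S = ∅ := Finset.card_eq_zero.1 hS
    have hmd0 : ex D - md S M = ex D := by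
      ext P
      rw [Finsupp.sub_apply, md_of_notMem (by rw [hS']; exact Finset.notMem_empty P), sub_zero]
    let a : LL (ex D - md S M) := ⟨-f₀, by rw [hmd0]; exact Submodule.neg_mem _ hf₀⟩
    have e2 : {g : LL (ex D - md S M) // f₀ + g.1 ≠ 0} ≃ {g : LL (ex D - md S M) // ¬ g = a} := by
      apply Equiv.subtypeEquivRight
      intro g
      have : f₀ + g.1 = 0 ↔ g = a := by
        constructor
        · intro h
          apply Subtype.ext
          show g.1 = -f₀
          exact eq_neg_of_add_eq_zero_right h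
        · intro h
          rw [h]
          show f₀ + -f₀ = 0
          ring
      rw [Ne, this]
    rw [Nat.card_congr e2, Nat.card_eq_fintype_card, Nat.card_eq_fintype_card,
      Fintype.card_subtype_compl, Fintype.card_subtype_eq]
  · rw [if_neg hS, Nat.sub_zero]
    apply Nat.card_congr
    apply Equiv.subtypeUnivEquiv
    intro g hg0
    obtain ⟨P, hP⟩ := Finset.card_ne_zero.1 hS
    have h1 := hcong g.1 g.2 P hP
    rw [hg0, zero_sub] at h1
    rcases h1 with h1 | h1
    · exact one_ne_zero (neg_eq_zero.1 h1)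
    · rw [P.ord_neg, P.ord_one] at h1
      have : (1 : ℤ) ≤ M := by exact_mod_cast hM
      omega

/-- The number of functions congruent to one depends only on the degree. -/
theorem exists_card [Finite k] (S : Finset (FF.Place k F)) (M : ℕ) (hM : 1 ≤ M) :
    ∃ (k0 : ℕ) (c : ℕ → ℕ), (∀ n, k0 ≤ n → c n ≠ 0) ∧ ∀ n, k0 ≤ n →
      ∀ D : {P : FF.Place k F // P ∉ S} →₀ ℤ,
        Deg (fun P : {P : FF.Place k F // P ∉ S} => P.1.deg) D = n →
          Nat.card {h : Hg (k := k) S M hM // 0 ≤ D + dv hR h} = c n := by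
  obtain ⟨γ, N, hN⟩ := hR.riem
  set δ : ℤ := dg (md S M) with hδ
  have hmd : (0 : ℤ) ≤ δ := by
    apply dg_nonneg
    intro P
    by_cases hP : P ∈ S
    · rw [md_of_mem hP]; exact Int.natCast_nonneg _
    · rw [md_of_notMem hP]
  have hq : 1 < Nat.card k := Finite.one_lt_card
  refine ⟨(N + δ).toNat + (δ + γ).toNat + 1,
    fun n => Nat.card k ^ ((n : ℤ) - δ - γ).toNat - (if S.card = 0 then 1 else 0), ?_, ?_⟩
  · intro n hn
    have h1 : 1 ≤ ((n : ℤ) - δ - γ).toNat := by omega
    have h2 : 2 ≤ Nat.card k ^ ((n : ℤ) - δ - γ).toNat :=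
      hq.trans_le (Nat.le_self_pow (by omega) _)
    show Nat.card k ^ ((n : ℤ) - δ - γ).toNat - (if S.card = 0 then 1 else 0) ≠ 0
    split_ifs <;> omega
  · intro n hn D hD
    have h1 : dg (ex D) = n := by rw [dg_ex, hD]
    have h2 : N + dg (md S M) ≤ dg (ex D) := by
      rw [h1, ← hδ]
      omega
    rw [card_eq hR hN S M hM D h2]
    have h3 := hN (ex D - md S M) (by
      unfold dg at h1 h2 hδ ⊢
      rw [Deg_sub, h1, ← hδ]
      omega)
    have h4 : dg (ex D - md S M) = n - δ := by
      unfold dg at h1 hδ ⊢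
      rw [Deg_sub, h1, ← hδ]
    rw [h4] at h3
    have h5 : finrank k (LL (ex D - md S M)) = ((n : ℤ) - δ - γ).toNat := by omega
    rw [h5]

open scoped PowerSeries.WithPiTopology in
/-- **E-APPLY.** A function `a` on the places outside `S` satisfying the reciprocity law modulo
`M • S` and not trivial on all divisors of degree zero prime to `S` has a polynomial Euler product. -/
theorem euler_polynomial [Finite k] {p : ℕ} [Fact p.Prime]
    (S : Finset (FF.Place k F)) (M : ℕ) (hM : 1 ≤ M)
    (hpos : ∀ P : FF.Place k F, P.deg ≠ 0) (hfin : ∀ n, {P : FF.Place k F | P.deg ≤ n}.Finite)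
    (a : {P : FF.Place k F // P ∉ S} → ℂ_[p]) (ha : ∀ P, a P ≠ 0)
    (hrec : ∀ h : Hg (k := k) S M hM, Val a (dv hR h) = 1)
    (D0 : {P : FF.Place k F // P ∉ S} →₀ ℤ)
    (hD0 : Deg (fun P : {P : FF.Place k F // P ∉ S} => P.1.deg) D0 = 0) (hv0 : Val a D0 ≠ 1) :
    ∃ A : Multiset ℂ_[p], (∏' P : {P : FF.Place k F // P ∉ S},
      (1 - PowerSeries.C (a P) * PowerSeries.X ^ P.1.deg : PowerSeries ℂ_[p])⁻¹) =
      Pool.Agent.H707R3.recipProd A := by
  obtain ⟨k0, c, hc, hcard⟩ := exists_card hR S M hM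
  exact (Pool.Agent.H962R3.Cnt.euler_polynomial
    (fun P : {P : FF.Place k F // P ∉ S} => P.1.deg) (fun P => hpos P.1)
    (fun n => (hfin n).preimage Subtype.val_injective.injOn) a ha (dv hR) (dv_inv hR) hrec
    (Deg_dv hR) k0 c hc hcard D0 hD0 hv0).2

end Pool.Agent.H962R3.App
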